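import Mathlib

set_option autoImplicit false

namespace Pool.Agent.Q268.Irr

open Finset

/-- The `F`-degree of `x` in `G`: the number of subgraphs of `G` isomorphic to `F` containing `x`. -/
noncomputable def FDeg {W V : Type} (F : SimpleGraph W) (G : SimpleGraph V) (x : V) : ℕ :=
  Nat.card {H : G.Subgraph // Nonempty (F ≃g H.coe) ∧ x ∈ H.verts}

/-- `G` is `F`-irregular: its vertices have pairwise distinct `F`-degrees. -/
def Irregular {W V : Type} (F : SimpleGraph W) (G : SimpleGraph V) : Prop :=
  ∀ x y : V, x ≠ y → FDeg F G x ≠ FDeg F G y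

/-- The star `K_{1,n}`. -/
abbrev star (n : ℕ) : SimpleGraph (Fin 1 ⊕ Fin n) := completeBipartiteGraph (Fin 1) (Fin n)

/-- The complete graph `K_n`. -/
abbrev clq (n : ℕ) : SimpleGraph (Fin n) := ⊤

lemma card_powersetCard_mem {V : Type} [DecidableEq V] (N : Finset V) (x : V) (q : ℕ) :
    ((powersetCard (q + 1) N).filter (fun L => x ∈ L)).card =
      if x ∈ N then (N.card - 1).choose q else 0 := by
  split_ifs with hx
  · have h : (powersetCard (q + 1) N).filter (fun L => x ∈ L) =
        (powersetCard q (N.erase x)).image (fun L => insert x L) := by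
      ext L
      rw [mem_filter, mem_powersetCard, mem_image]
      constructor
      · rintro ⟨⟨h1, h2⟩, h3⟩
        refine ⟨L.erase x, ?_, Finset.insert_erase h3⟩
        rw [mem_powersetCard]
        refine ⟨Finset.erase_subset_erase x h1, ?_⟩
        rw [Finset.card_erase_of_mem h3]
        omega
      · rintro ⟨M, hM, rfl⟩
        rw [mem_powersetCard] at hM
        have hxM : x ∉ M := fun h => by simpa using hM.1 h
        refine ⟨⟨?_, ?_⟩, Finset.mem_insert_self _ _⟩
        · intro y hy
          rw [mem_insert] at hy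
          rcases hy with rfl | hy
          · exact hx
          · exact Finset.mem_of_mem_erase (hM.1 hy)
        · rw [Finset.card_insert_of_notMem hxM, hM.2]
    rw [h, Finset.card_image_of_injOn, card_powersetCard, Finset.card_erase_of_mem hx]
    intro L hL M hM hLM
    rw [Finset.mem_coe, mem_powersetCard] at hL hM
    have hxL : x ∉ L := fun h => by simpa using hL.1 h
    have hxM : x ∉ M := fun h => by simpa using hM.1 h
    have := congrArg (fun s => s.erase x) hLM
    simpa [Finset.erase_insert hxL, Finset.erase_insert hxM] using this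
  · rw [Finset.card_eq_zero, Finset.filter_eq_empty_iff]
    intro L hL hxL
    rw [mem_powersetCard] at hL
    exact hx (hL.1 hxL)

section star

variable {V : Type} [Fintype V] [DecidableEq V] (G : SimpleGraph V) [DecidableRel G.Adj]

/-- The star with centre `c` and set of leaves `L` (inside `G`). -/
def sub (c : V) (L : Finset V) : G.Subgraph where
  verts := {v | v = c ∨ v ∈ L}
  Adj u v := G.Adj u v ∧ ((u = c ∧ v ∈ L) ∨ (v = c ∧ u ∈ L))
  adj_sub h := h.1
  edge_vert := by
    rintro u v ⟨_, (⟨h, _⟩ | ⟨_, h⟩)⟩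
    · exact Or.inl h
    · exact Or.inr h
  symm := ⟨by
    rintro u v ⟨h1, (h2 | h2)⟩
    · exact ⟨h1.symm, Or.inr h2⟩
    · exact ⟨h1.symm, Or.inl h2⟩⟩

variable {G}

lemma sub_adj {c : V} {L : Finset V} {u v : V} :
    (sub G c L).Adj u v ↔ G.Adj u v ∧ ((u = c ∧ v ∈ L) ∨ (v = c ∧ u ∈ L)) := Iff.rfl

lemma sub_iso {n : ℕ} {c : V} {L : Finset V} (hL : L ⊆ G.neighborFinset c) (hn : L.card = n) :
    Nonempty (star n ≃g (sub G c L).coe) := by
  have hcL : c ∉ L := by
    intro h
    have := hL h
    rw [SimpleGraph.mem_neighborFinset] at this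
    exact this.ne rfl
  let e : Fin n ≃ L := (L.equivFinOfCardEq hn).symm
  let φ : Fin 1 ⊕ Fin n → (sub G c L).verts := fun z => match z with
    | Sum.inl _ => ⟨c, Or.inl rfl⟩
    | Sum.inr i => ⟨(e i).1, Or.inr (e i).2⟩
  have hφ : Function.Bijective φ := by
    constructor
    · rintro (a | i) (b | j) h
      · rw [Subsingleton.elim a b]
      · exfalso
        have h1 : c = (e j).1 := congrArg Subtype.val h
        exact hcL (h1 ▸ (e j).2)
      · exfalso
        have h1 : (e i).1 = c := congrArg Subtype.val h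
        exact hcL (h1 ▸ (e i).2)
      · have h1 : (φ (Sum.inr i)).1 = (φ (Sum.inr j)).1 := congrArg Subtype.val h
        have h2 : e i = e j := Subtype.ext h1
        rw [e.injective h2]
    · rintro ⟨v, (rfl | hv)⟩
      · exact ⟨Sum.inl 0, rfl⟩
      · refine ⟨Sum.inr (e.symm ⟨v, hv⟩), ?_⟩
        apply Subtype.ext
        change (e (e.symm ⟨v, hv⟩)).1 = v
        rw [Equiv.apply_symm_apply]
  refine ⟨⟨Equiv.ofBijective φ hφ, ?_⟩⟩
  rintro (a | i) (b | j)
  · simp only [Equiv.ofBijective_apply, SimpleGraph.Subgraph.coe_adj]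
    rw [sub_adj]
    simp [φ]
  · simp only [Equiv.ofBijective_apply, SimpleGraph.Subgraph.coe_adj]
    rw [sub_adj]
    have h1 : G.Adj c (e j).1 := by
      rw [← SimpleGraph.mem_neighborFinset]; exact hL (e j).2
    simp [φ, h1]
  · simp only [Equiv.ofBijective_apply, SimpleGraph.Subgraph.coe_adj]
    rw [sub_adj]
    have h1 : G.Adj (e i).1 c := by
      rw [SimpleGraph.adj_comm, ← SimpleGraph.mem_neighborFinset]; exact hL (e i).2
    simp [φ, h1]
  · simp only [Equiv.ofBijective_apply, SimpleGraph.Subgraph.coe_adj]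
    rw [sub_adj]
    have h1 : (e i).1 ≠ c := by rintro h; exact hcL (h ▸ (e i).2)
    have h2 : (e j).1 ≠ c := by rintro h; exact hcL (h ▸ (e j).2)
    simp [φ, h1, h2]

lemma sub_inj {n : ℕ} (hn : 2 ≤ n) {c c' : V} {L L' : Finset V} (hL : L ⊆ G.neighborFinset c)
    (hL' : L' ⊆ G.neighborFinset c') (hc : L.card = n) (h : sub G c L = sub G c' L') :
    c = c' ∧ L = L' := by
  have hadj : ∀ u v, (sub G c L).Adj u v ↔ (sub G c' L').Adj u v := by
    intro u v; rw [h]
  have h1 : ∀ v ∈ L, (sub G c L).Adj c v := by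
    intro v hv
    have := hL hv
    rw [SimpleGraph.mem_neighborFinset] at this
    exact ⟨this, Or.inl ⟨rfl, hv⟩⟩
  obtain ⟨l1, hl1, l2, hl2, hne⟩ := Finset.one_lt_card.mp (show 1 < L.card by omega)
  have hcc : c = c' := by
    by_contra hcon
    have a1 := (hadj c l1).mp (h1 l1 hl1)
    have a2 := (hadj c l2).mp (h1 l2 hl2)
    rcases a1.2 with ⟨h3, _⟩ | ⟨h3, _⟩
    · exact hcon h3
    · rcases a2.2 with ⟨h4, _⟩ | ⟨h4, _⟩
      · exact hcon h4
      · exact hne (h3.trans h4.symm)
  refine ⟨hcc, ?_⟩
  subst hcc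
  have key : ∀ (L L' : Finset V), L ⊆ G.neighborFinset c → (∀ u v, (sub G c L).Adj u v → (sub G c L').Adj u v) →
      L ⊆ L' := by
    intro L L' hL hadj v hv
    have hv' := hL hv
    rw [SimpleGraph.mem_neighborFinset] at hv'
    have := hadj c v ⟨hv', Or.inl ⟨rfl, hv⟩⟩
    rcases this.2 with ⟨_, h3⟩ | ⟨h3, _⟩
    · exact h3
    · exact absurd h3 hv'.ne.symm
  exact Finset.Subset.antisymm (key L L' hL (fun u v => (hadj u v).mp))
    (key L' L hL' (fun u v => (hadj u v).mpr))

lemma sub_surj {n : ℕ} (H : G.Subgraph) (φ : star n ≃g H.coe) :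
    ∃ (c : V) (L : Finset V), L ⊆ G.neighborFinset c ∧ L.card = n ∧ sub G c L = H := by
  let c : V := (φ (Sum.inl 0)).1
  let L : Finset V := univ.image (fun i : Fin n => (φ (Sum.inr i)).1)
  have hcadj : ∀ i : Fin n, H.Adj c (φ (Sum.inr i)).1 := by
    intro i
    have : (star n).Adj (Sum.inl 0) (Sum.inr i) := by simp
    exact φ.map_rel_iff.mpr this
  refine ⟨c, L, ?_, ?_, ?_⟩
  · intro v hv
    rw [mem_image] at hv
    obtain ⟨i, -, rfl⟩ := hv
    rw [SimpleGraph.mem_neighborFinset]
    exact H.adj_sub (hcadj i)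
  · rw [Finset.card_image_of_injective]
    · simp
    · intro i j hij
      have := φ.injective (Subtype.ext hij)
      simpa using this
  · have hverts : ∀ v, v ∈ H.verts ↔ v = c ∨ v ∈ L := by
      intro v
      constructor
      · intro hv
        obtain ⟨z, hz⟩ := φ.surjective ⟨v, hv⟩
        rcases z with a | i
        · left
          rw [Subsingleton.elim a 0] at hz
          exact (congrArg Subtype.val hz).symm
        · right
          rw [mem_image]
          exact ⟨i, mem_univ _, congrArg Subtype.val hz⟩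
      · rintro (rfl | hv)
        · exact (φ (Sum.inl 0)).2
        · rw [mem_image] at hv
          obtain ⟨i, -, rfl⟩ := hv
          exact (φ (Sum.inr i)).2
    apply SimpleGraph.Subgraph.ext
    · ext v
      exact (hverts v).symm
    · funext u v
      apply propext
      rw [sub_adj]
      constructor
      · rintro ⟨_, (⟨rfl, hv⟩ | ⟨rfl, hu⟩)⟩
        · rw [mem_image] at hv
          obtain ⟨i, -, rfl⟩ := hv
          exact hcadj i
        · rw [mem_image] at hu
          obtain ⟨i, -, rfl⟩ := hu
          exact (hcadj i).symm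
      · intro h
        refine ⟨H.adj_sub h, ?_⟩
        obtain ⟨x, hx⟩ := φ.surjective ⟨u, H.edge_vert h⟩
        obtain ⟨y, hy⟩ := φ.surjective ⟨v, H.edge_vert h.symm⟩
        have h1 : H.coe.Adj (φ x) (φ y) := by rw [hx, hy]; exact h
        have h2 : (star n).Adj x y := φ.map_rel_iff.mp h1
        rcases x with a | i <;> rcases y with b | j
        · simp at h2
        · left
          rw [Subsingleton.elim a 0] at hx
          refine ⟨(congrArg Subtype.val hx).symm, ?_⟩
          rw [mem_image]
          exact ⟨j, mem_univ _, congrArg Subtype.val hy⟩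
        · right
          rw [Subsingleton.elim b 0] at hy
          refine ⟨(congrArg Subtype.val hy).symm, ?_⟩
          rw [mem_image]
          exact ⟨i, mem_univ _, congrArg Subtype.val hx⟩
        · simp at h2

/-- The `K_{1,n}`-degree. -/
theorem star_deg {n : ℕ} (hn : 2 ≤ n) (x : V) :
    FDeg (star n) G x = (G.degree x).choose n +
      ∑ y ∈ G.neighborFinset x, (G.degree y - 1).choose (n - 1) := by
  let P : Finset (Σ _ : V, Finset V) :=
    univ.sigma (fun c => (powersetCard n (G.neighborFinset c)).filter (fun L => x = c ∨ x ∈ L))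
  have hmem : ∀ p : (Σ _ : V, Finset V), p ∈ P ↔ p.2 ⊆ G.neighborFinset p.1 ∧ p.2.card = n ∧
      (x = p.1 ∨ x ∈ p.2) := by
    intro p
    simp only [P, mem_sigma, mem_univ, true_and, mem_filter, mem_powersetCard, and_assoc]
  let Φ : P → {H : G.Subgraph // Nonempty (star n ≃g H.coe) ∧ x ∈ H.verts} := fun p =>
    ⟨sub G p.1.1 p.1.2, sub_iso ((hmem p.1).mp p.2).1 ((hmem p.1).mp p.2).2.1,
      ((hmem p.1).mp p.2).2.2⟩
  have hΦ : Function.Bijective Φ := by
    constructor
    · rintro ⟨⟨c, L⟩, hp⟩ ⟨⟨c', L'⟩, hp'⟩ h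
      have h1 := (hmem _).mp hp
      have h2 := (hmem _).mp hp'
      obtain ⟨h3, h4⟩ := sub_inj hn h1.1 h2.1 h1.2.1 (congrArg Subtype.val h)
      simp only at h3 h4
      subst h3; subst h4
      rfl
    · rintro ⟨H, ⟨φ⟩, hx⟩
      obtain ⟨c, L, h1, h2, h3⟩ := sub_surj H φ
      subst h3
      exact ⟨⟨⟨c, L⟩, (hmem _).mpr ⟨h1, h2, hx⟩⟩, rfl⟩
  unfold FDeg
  rw [← Nat.card_eq_of_bijective Φ hΦ, Nat.card_eq_fintype_card, Fintype.card_coe]
  simp only [P, card_sigma]
  rw [← Finset.add_sum_erase _ _ (mem_univ x)]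
  congr 1
  · rw [Finset.filter_true_of_mem (fun L _ => Or.inl rfl), card_powersetCard,
      SimpleGraph.card_neighborFinset_eq_degree]
  · obtain ⟨q, rfl⟩ : ∃ q, n = q + 1 := ⟨n - 1, by omega⟩
    have h1 : ∀ c ∈ univ.erase x, ((powersetCard (q + 1) (G.neighborFinset c)).filter
        (fun L => x = c ∨ x ∈ L)).card =
        if x ∈ G.neighborFinset c then (G.degree c - 1).choose q else 0 := by
      intro c hc
      have hxc : x ≠ c := (Finset.ne_of_mem_erase hc).symm
      rw [← SimpleGraph.card_neighborFinset_eq_degree, ← card_powersetCard_mem]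
      congr 1
      apply Finset.filter_congr
      intro L _
      simp [hxc]
    rw [Finset.sum_congr rfl h1, ← Finset.sum_filter]
    simp only [Nat.add_sub_cancel]
    apply Finset.sum_congr
    · ext c
      rw [mem_filter, mem_erase, SimpleGraph.mem_neighborFinset, SimpleGraph.mem_neighborFinset]
      constructor
      · rintro ⟨_, h⟩; exact h.symm
      · intro h; exact ⟨⟨h.ne.symm, mem_univ _⟩, h.symm⟩
    · intros; rfl

end star

section clique

variable {V : Type} [Fintype V] [DecidableEq V] {G : SimpleGraph V}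

/-- The `K_n`-degree. -/
theorem clq_deg (n : ℕ) (x : V) :
    FDeg (clq n) G x = Nat.card {S : Finset V // S.card = n ∧ G.IsClique (S : Set V) ∧ x ∈ S} := by
  classical
  unfold FDeg
  let Ψ : {S : Finset V // S.card = n ∧ G.IsClique (S : Set V) ∧ x ∈ S} →
      {H : G.Subgraph // Nonempty (clq n ≃g H.coe) ∧ x ∈ H.verts} := fun S =>
    ⟨(⊤ : G.Subgraph).induce (S.1 : Set V), by
      refine ⟨?_, S.2.2.2⟩
      let e : Fin n ≃ S.1 := (S.1.equivFinOfCardEq S.2.1).symm
      let e' : S.1 ≃ ((⊤ : G.Subgraph).induce (S.1 : Set V)).verts := Equiv.refl _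
      refine ⟨⟨e.trans e', ?_⟩⟩
      intro a b
      rw [SimpleGraph.Subgraph.coe_adj, SimpleGraph.Subgraph.induce_adj, SimpleGraph.top_adj,
        SimpleGraph.Subgraph.top_adj]
      constructor
      · rintro ⟨_, _, h⟩ rfl
        exact h.ne rfl
      · intro h
        refine ⟨(e a).2, (e b).2, S.2.2.1 (e a).2 (e b).2 ?_⟩
        intro hab
        exact h (e.injective (Subtype.ext hab))⟩
  have hΨ : Function.Bijective Ψ := by
    constructor
    · rintro ⟨S, hS⟩ ⟨T, hT⟩ h
      have h1 := congrArg (fun H => SimpleGraph.Subgraph.verts H.1) h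
      apply Subtype.ext
      exact Finset.coe_injective h1
    · rintro ⟨H, ⟨φ⟩, hx⟩
      let S : Finset V := univ.image (fun i : Fin n => (φ i).1)
      have hSv : (S : Set V) = H.verts := by
        ext v
        rw [Finset.mem_coe, mem_image]
        constructor
        · rintro ⟨i, -, rfl⟩; exact (φ i).2
        · intro hv
          obtain ⟨i, hi⟩ := φ.surjective ⟨v, hv⟩
          exact ⟨i, mem_univ _, congrArg Subtype.val hi⟩
      have hadj : ∀ u v, u ∈ H.verts → v ∈ H.verts → u ≠ v → H.Adj u v := by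
        intro u v hu hv huv
        obtain ⟨i, hi⟩ := φ.surjective ⟨u, hu⟩
        obtain ⟨j, hj⟩ := φ.surjective ⟨v, hv⟩
        have hij : i ≠ j := by
          rintro rfl
          exact huv (congrArg Subtype.val (hi.symm.trans hj))
        have h1 : H.coe.Adj (φ i) (φ j) := φ.map_rel_iff.mpr hij
        rw [hi, hj] at h1
        exact h1
      refine ⟨⟨S, ?_, ?_, ?_⟩, ?_⟩
      · rw [Finset.card_image_of_injective]
        · simp
        · intro i j hij
          exact φ.injective (Subtype.ext hij)
      · intro u hu v hv huv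
        rw [hSv] at hu hv
        exact H.adj_sub (hadj u v hu hv huv)
      · rw [← Finset.mem_coe, hSv]; exact hx
      · apply Subtype.ext
        change (⊤ : G.Subgraph).induce (S : Set V) = H
        apply SimpleGraph.Subgraph.ext
        · exact hSv
        · funext u v
          apply propext
          rw [SimpleGraph.Subgraph.induce_adj, hSv, SimpleGraph.Subgraph.top_adj]
          constructor
          · rintro ⟨hu, hv, h⟩
            exact hadj u v hu hv h.ne
          · intro h
            exact ⟨H.edge_vert h, H.edge_vert h.symm, H.adj_sub h⟩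
  exact (Nat.card_eq_of_bijective Ψ hΨ).symm

end clique

end Pool.Agent.Q268.Irr
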