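import Pool.Agent.Q268.Irr.Base

set_option autoImplicit false

namespace Pool.Agent.Q268.Irr

open Finset

/-! ### Split graphs -/

section split

variable {m r : ℕ} (N : Fin r → Finset (Fin m))

/-- The split graph: clique `Fin m`, independent set `Fin r`, `j` joined to `N j`. -/
def Spl : SimpleGraph (Fin m ⊕ Fin r) where
  Adj x y := match x, y with
    | Sum.inl i, Sum.inl k => i ≠ k
    | Sum.inl i, Sum.inr j => i ∈ N j
    | Sum.inr j, Sum.inl i => i ∈ N j
    | Sum.inr _, Sum.inr _ => False
  symm := ⟨by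
    rintro (i | j) (i' | j') h
    · exact fun h' => h h'.symm
    · exact h
    · exact h
    · exact h⟩
  loopless := ⟨by
    rintro (i | j) h
    · exact h rfl
    · exact h⟩

/-- `(o, T)` gives the vertex set `T ∪ o` -/
def uni (p : Σ _ : Option (Fin r), Finset (Fin m)) : Finset (Fin m ⊕ Fin r) :=
  p.2.disjSum p.1.toFinset

lemma uni_inj {p q : Σ _ : Option (Fin r), Finset (Fin m)} (h : uni p = uni q) : p = q := by
  obtain ⟨o, T⟩ := p
  obtain ⟨o', T'⟩ := q
  unfold uni at h
  rw [disjSum_inj] at h
  obtain ⟨h1, h2⟩ := h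
  simp only at h1 h2
  subst h1
  have : o = o' := by
    cases o with
    | none => cases o' with
      | none => rfl
      | some b => simp at h2
    | some a => cases o' with
      | none => simp at h2
      | some b => simpa using h2
  rw [this]

/-- the admissible pairs for `(h+2)`-cliques -/
def adm (h : ℕ) (o : Option (Fin r)) : Finset (Finset (Fin m)) :=
  match o with
  | none => powersetCard (h + 2) univ
  | some j => powersetCard (h + 1) (N j)

lemma clique_iff (h : ℕ) (S : Finset (Fin m ⊕ Fin r)) :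
    (S.card = h + 2 ∧ (Spl N).IsClique (S : Set (Fin m ⊕ Fin r))) ↔
      ∃ p : (Σ _ : Option (Fin r), Finset (Fin m)), p.2 ∈ adm N h p.1 ∧ uni p = S := by
  constructor
  · rintro ⟨h1, h2⟩
    have hS : S = S.toLeft.disjSum S.toRight := Finset.toLeft_disjSum_toRight.symm
    have hcard : S.card = S.toLeft.card + S.toRight.card := by
      conv_lhs => rw [hS]
      rw [card_disjSum]
    have hR : S.toRight.card ≤ 1 := by
      rw [Finset.card_le_one]
      intro a ha b hb
      by_contra hab
      rw [Finset.mem_toRight] at ha hb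
      exact h2 ha hb (by simpa using hab)
    rcases Nat.lt_or_ge S.toRight.card 1 with h0 | h0
    · have hR0 : S.toRight = ∅ := by
        rw [← Finset.card_eq_zero]; omega
      refine ⟨⟨none, S.toLeft⟩, ?_, ?_⟩
      · simp only [adm, mem_powersetCard]
        exact ⟨subset_univ _, by rw [hR0, card_empty] at hcard; omega⟩
      · unfold uni
        conv_rhs => rw [hS]
        rw [hR0]
        rfl
    · have hR1 : S.toRight.card = 1 := by omega
      obtain ⟨j, hj⟩ := Finset.card_eq_one.mp hR1
      refine ⟨⟨some j, S.toLeft⟩, ?_, ?_⟩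
      · simp only [adm, mem_powersetCard]
        refine ⟨?_, by omega⟩
        intro i hi
        rw [Finset.mem_toLeft] at hi
        have hjS : Sum.inr j ∈ S := by
          rw [← Finset.mem_toRight, hj]; simp
        have := h2 hi hjS (by simp)
        exact this
      · unfold uni
        conv_rhs => rw [hS]
        rw [hj]
        rfl
  · rintro ⟨⟨o, T⟩, hp, rfl⟩
    rcases o with _ | j
    · simp only [adm, mem_powersetCard] at hp
      constructor
      · simp [uni, card_disjSum, hp.2]
      · rintro (x | x) hx (y | y) hy hxy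
        · intro h; exact hxy (by rw [h])
        · simp [uni] at hy
        · simp [uni] at hx
        · simp [uni] at hx
    · simp only [adm, mem_powersetCard] at hp
      constructor
      · simp [uni, card_disjSum, hp.2]
      · rintro (x | x) hx (y | y) hy hxy
        · intro h; exact hxy (by rw [h])
        · simp only [uni, Finset.mem_coe, inl_mem_disjSum, inr_mem_disjSum, Option.toFinset_some,
            mem_singleton] at hx hy
          subst hy
          exact hp.1 hx
        · simp only [uni, Finset.mem_coe, inl_mem_disjSum, inr_mem_disjSum, Option.toFinset_some,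
            mem_singleton] at hx hy
          subst hx
          exact hp.1 hy
        · exfalso
          simp [uni] at hx hy
          exact hxy (by rw [hx, hy])

lemma clq_deg_spl (h : ℕ) (x : Fin m ⊕ Fin r) :
    FDeg (clq (h + 2)) (Spl N) x =
      ∑ o : Option (Fin r), ((adm N h o).filter (fun T => x ∈ uni ⟨o, T⟩)).card := by
  classical
  rw [clq_deg, ← Finset.card_sigma]
  let P : Finset (Σ _ : Option (Fin r), Finset (Fin m)) :=
    univ.sigma (fun o => (adm N h o).filter (fun T => x ∈ uni ⟨o, T⟩))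
  have hmem : ∀ p, p ∈ P ↔ p.2 ∈ adm N h p.1 ∧ x ∈ uni p := by
    intro p
    simp [P]
  change _ = P.card
  rw [← Fintype.card_coe, ← Nat.card_eq_fintype_card]
  symm
  let Φ : P → {S : Finset (Fin m ⊕ Fin r) // S.card = h + 2 ∧ (Spl N).IsClique (S : Set (Fin m ⊕ Fin r)) ∧ x ∈ S} :=
    fun p => ⟨uni p.1, by
      have h1 := (hmem p.1).mp p.2
      have h2 := (clique_iff N h (uni p.1)).mpr ⟨p.1, h1.1, rfl⟩
      exact ⟨h2.1, h2.2, h1.2⟩⟩
  refine Nat.card_eq_of_bijective Φ ⟨?_, ?_⟩
  · intro p q hpq
    exact Subtype.ext (uni_inj (congrArg Subtype.val hpq))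
  · rintro ⟨S, h1, h2, h3⟩
    obtain ⟨p, hp, rfl⟩ := (clique_iff N h S).mp ⟨h1, h2⟩
    exact ⟨⟨p, (hmem p).mpr ⟨hp, h3⟩⟩, rfl⟩

lemma clq_deg_inr (h : ℕ) (j : Fin r) :
    FDeg (clq (h + 2)) (Spl N) (Sum.inr j) = ((N j).card).choose (h + 1) := by
  rw [clq_deg_spl, Fintype.sum_option]
  have h0 : ((adm N h none).filter (fun T => (Sum.inr j : Fin m ⊕ Fin r) ∈ uni ⟨none, T⟩)).card = 0 := by
    rw [Finset.card_eq_zero, Finset.filter_eq_empty_iff]
    intro T _
    simp [uni]
  rw [h0, zero_add, ← Finset.add_sum_erase _ _ (mem_univ j)]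
  have h1 : ∑ i ∈ univ.erase j, ((adm N h (some i)).filter
      (fun T => (Sum.inr j : Fin m ⊕ Fin r) ∈ uni ⟨some i, T⟩)).card = 0 := by
    apply Finset.sum_eq_zero
    intro i hi
    rw [Finset.card_eq_zero, Finset.filter_eq_empty_iff]
    intro T _
    have := (Finset.ne_of_mem_erase hi).symm
    simp [uni, this]
  rw [h1, add_zero, Finset.filter_true_of_mem]
  · simp [adm, card_powersetCard]
  · intro T _
    simp [uni]

lemma clq_deg_inl (h : ℕ) (k : Fin m) :
    FDeg (clq (h + 2)) (Spl N) (Sum.inl k) = (m - 1).choose (h + 1) +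
      ∑ j : Fin r, if k ∈ N j then ((N j).card - 1).choose h else 0 := by
  rw [clq_deg_spl, Fintype.sum_option]
  congr 1
  · have : (adm N h none).filter (fun T => (Sum.inl k : Fin m ⊕ Fin r) ∈ uni ⟨none, T⟩) =
        (powersetCard (h + 1 + 1) (univ : Finset (Fin m))).filter (fun T => k ∈ T) := by
      unfold adm
      apply Finset.filter_congr
      intro T _
      simp [uni]
    rw [this, card_powersetCard_mem]
    simp
  · apply Finset.sum_congr rfl
    intro j _
    rw [← card_powersetCard_mem]
    unfold adm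
    congr 1
    apply Finset.filter_congr
    intro T _
    simp [uni]

end split

/-! ### The choice of the neighbourhoods -/

section main

variable (h r : ℕ)

/-- complement of the neighbourhood of `j`; `m = h + 1 + r` -/
def M (j : Fin r) : Finset (Fin (h + 1 + r)) :=
  univ.filter (fun k => (h + 1 + j.val ≤ k.val ∧ ¬ (1 ≤ j.val ∧ j.val ≤ h ∧ k.val + j.val = h + 1 + r)) ∨
    (1 ≤ j.val ∧ j.val ≤ h ∧ k.val = j.val))

def NN (j : Fin r) : Finset (Fin (h + 1 + r)) := univ \ M h r j

lemma card_M (hr : 2 * h < r) (j : Fin r) : (M h r j).card = r - j.val := by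
  have hbase : (univ.filter (fun k : Fin (h + 1 + r) => h + 1 + j.val ≤ k.val)).card = r - j.val := by
    have hj := j.2
    have : univ.filter (fun k : Fin (h + 1 + r) => h + 1 + j.val ≤ k.val) =
        Finset.Ici (⟨h + 1 + j.val, by omega⟩ : Fin (h + 1 + r)) := by
      ext k
      simp [Fin.le_def]
    rw [this, Fin.card_Ici]
    simp only
    omega
  by_cases hj : 1 ≤ j.val ∧ j.val ≤ h
  · have : M h r j = insert (⟨j.val, by omega⟩ : Fin (h + 1 + r))
        ((univ.filter (fun k : Fin (h + 1 + r) => h + 1 + j.val ≤ k.val)).erase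
          ⟨h + 1 + r - j.val, by omega⟩) := by
      ext k
      simp only [M, mem_filter, mem_univ, true_and, mem_insert, mem_erase, ne_eq, Fin.ext_iff]
      have := k.2
      omega
    rw [this, Finset.card_insert_of_notMem, Finset.card_erase_of_mem, hbase]
    · omega
    · simp only [mem_filter, mem_univ, true_and]
      omega
    · simp only [mem_filter, mem_univ, true_and, mem_erase, not_and, not_le]
      omega
  · have : M h r j = univ.filter (fun k : Fin (h + 1 + r) => h + 1 + j.val ≤ k.val) := by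
      ext k
      simp only [M, mem_filter, mem_univ, true_and]
      omega
    rw [this, hbase]

lemma card_NN (hr : 2 * h < r) (j : Fin r) : (NN h r j).card = h + 1 + j.val := by
  unfold NN
  rw [Finset.card_sdiff_of_subset (subset_univ _), card_M h r hr]
  have := j.2
  simp
  omega

/-- the loss of the vertex `k` -/
def Vl (k : Fin (h + 1 + r)) : ℕ := ∑ j : Fin r, if k ∈ M h r j then (h + j.val).choose h else 0

lemma sum_hockey (q : ℕ) : ∑ j ∈ range q, (h + j).choose h = (h + q).choose (h + 1) := by
  induction q with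
  | zero => simp
  | succ q ih =>
    rw [Finset.sum_range_succ, ih, ← add_assoc, Nat.choose_succ_succ' (h + q) h]
    ring

lemma Vl_range (k : Fin (h + 1 + r)) : Vl h r k =
    ∑ j ∈ range r, if ((h + 1 + j ≤ k.val ∧ ¬ (1 ≤ j ∧ j ≤ h ∧ k.val + j = h + 1 + r)) ∨
    (1 ≤ j ∧ j ≤ h ∧ k.val = j)) then (h + j).choose h else 0 := by
  unfold Vl
  rw [← Fin.sum_univ_eq_sum_range (fun j => if ((h + 1 + j ≤ k.val ∧ ¬ (1 ≤ j ∧ j ≤ h ∧ k.val + j = h + 1 + r)) ∨
    (1 ≤ j ∧ j ≤ h ∧ k.val = j)) then (h + j).choose h else 0) r]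
  apply Finset.sum_congr rfl
  intro j _
  congr 1
  simp [M]

lemma Vl_zero (k : Fin (h + 1 + r)) (hk : k.val = 0) : Vl h r k = 0 := by
  rw [Vl_range]
  apply Finset.sum_eq_zero
  intro j _
  rw [if_neg]
  omega

lemma Vl_small (hr : 2 * h < r) (k : Fin (h + 1 + r)) (h1 : 1 ≤ k.val) (h2 : k.val ≤ h) :
    Vl h r k = (h + k.val).choose h := by
  rw [Vl_range, Finset.sum_eq_single k.val]
  · rw [if_pos]
    omega
  · intro j _ hj
    rw [if_neg]
    omega
  · intro hk
    rw [mem_range] at hk
    omega

lemma Vl_mid (k : Fin (h + 1 + r)) (h1 : h < k.val) (h2 : k.val + h < h + 1 + r) :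
    Vl h r k = k.val.choose (h + 1) := by
  have hk : k.val = h + (k.val - h) := by omega
  rw [Vl_range]
  conv_rhs => rw [hk, ← sum_hockey]
  rw [← Finset.sum_filter]
  apply Finset.sum_congr
  · ext j
    rw [mem_filter, mem_range, mem_range]
    omega
  · intros; rfl

lemma Vl_large (hr : 2 * h < r) (k : Fin (h + 1 + r)) (h1 : h + 1 + r ≤ k.val + h) :
    Vl h r k + (h + (h + 1 + r - k.val)).choose h = k.val.choose (h + 1) := by
  have hk2 := k.2
  have hk : k.val = h + (k.val - h) := by omega
  rw [Vl_range]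
  conv_rhs => rw [hk, ← sum_hockey]
  rw [← Finset.sum_filter]
  have hmem : h + 1 + r - k.val ∈ range (k.val - h) := by
    rw [mem_range]; omega
  rw [← Finset.sum_erase_add _ _ hmem]
  congr 1
  apply Finset.sum_congr
  · ext j
    rw [mem_filter, mem_range, mem_erase, mem_range]
    omega
  · intros; rfl

/-- position -/
def pos (k : ℕ) : ℕ :=
  if k = 0 then 2 * h
  else if k ≤ h then 2 * (h + k) + 1
  else if k + h < h + 1 + r then 2 * k
  else 2 * (k - 1) + 1

lemma pos_inj (hr : 2 * h < r) {k l : ℕ} (hk : k < h + 1 + r) (hl : l < h + 1 + r)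
    (hkl : pos h r k = pos h r l) : k = l := by
  unfold pos at hkl
  split_ifs at hkl <;> omega

lemma grid_lt {a b : ℕ} (hab : a < b) (ha : h ≤ a) : a.choose (h + 1) < b.choose (h + 1) := by
  obtain ⟨z, rfl⟩ : ∃ z, b = z + 1 := ⟨b - 1, by omega⟩
  have h1 : a.choose (h + 1) ≤ z.choose (h + 1) := Nat.choose_le_choose _ (by omega)
  have h2 : (z + 1).choose (h + 1) = z.choose h + z.choose (h + 1) := Nat.choose_succ_succ' z h
  have h3 : 0 < z.choose h := Nat.choose_pos (by omega)
  omega

lemma grid_le {a b : ℕ} (hab : a ≤ b) : a.choose (h + 1) ≤ b.choose (h + 1) :=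
  Nat.choose_le_choose _ hab

/-- sandwich between grid points -/
lemma sandwich (hh : 1 ≤ h) (hr : 2 * h < r) (k : Fin (h + 1 + r)) :
    (pos h r k.val % 2 = 0 ∧ Vl h r k = (pos h r k.val / 2).choose (h + 1) ∧ h ≤ pos h r k.val / 2) ∨
    (pos h r k.val % 2 = 1 ∧ (pos h r k.val / 2).choose (h + 1) < Vl h r k ∧
      Vl h r k < (pos h r k.val / 2 + 1).choose (h + 1) ∧ h ≤ pos h r k.val / 2) := by
  have hk2 := k.2
  by_cases h0 : k.val = 0
  · left
    have hp : pos h r k.val = 2 * h := by unfold pos; rw [if_pos h0]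
    rw [hp, Vl_zero h r k h0]
    refine ⟨by omega, ?_, by omega⟩
    rw [show 2 * h / 2 = h by omega, Nat.choose_succ_self]
  by_cases h1 : k.val ≤ h
  · right
    have hp : pos h r k.val = 2 * (h + k.val) + 1 := by
      unfold pos; rw [if_neg h0, if_pos h1]
    have hd : (2 * (h + k.val) + 1) / 2 = h + k.val := by omega
    rw [hp, Vl_small h r hr k (by omega) h1, hd]
    refine ⟨by omega, ?_, ?_, by omega⟩
    · -- C(h+k, h+1) < C(h+k, h)
      have h2 := Nat.choose_succ_right_eq (h + k.val) h
      rw [show h + k.val - h = k.val by omega] at h2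
      have h3 : 0 < (h + k.val).choose h := Nat.choose_pos (by omega)
      nlinarith
    · have h2 : (h + k.val + 1).choose (h + 1) = (h + k.val).choose h + (h + k.val).choose (h + 1) :=
        Nat.choose_succ_succ' _ _
      have h3 : 0 < (h + k.val).choose (h + 1) := Nat.choose_pos (by omega)
      omega
  by_cases h2 : k.val + h < h + 1 + r
  · left
    have hp : pos h r k.val = 2 * k.val := by
      unfold pos; rw [if_neg h0, if_neg h1, if_pos h2]
    rw [hp, Vl_mid h r k (by omega) h2]
    refine ⟨by omega, ?_, by omega⟩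
    rw [show 2 * k.val / 2 = k.val by omega]
  · right
    have hp : pos h r k.val = 2 * (k.val - 1) + 1 := by
      unfold pos; rw [if_neg h0, if_neg h1, if_neg h2]
    have hd : (2 * (k.val - 1) + 1) / 2 = k.val - 1 := by omega
    have h3 := Vl_large h r hr k (by omega)
    rw [hp, hd]
    have h4 : k.val - 1 + 1 = k.val := by omega
    rw [h4]
    have h5 : k.val.choose (h + 1) = (k.val - 1).choose h + (k.val - 1).choose (h + 1) := by
      have := Nat.choose_succ_succ' (k.val - 1) h
      rwa [h4] at this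
    have h6 : 0 < (h + (h + 1 + r - k.val)).choose h := Nat.choose_pos (by omega)
    have h7 : (h + (h + 1 + r - k.val)).choose h < (k.val - 1).choose h := by
      obtain ⟨q, rfl⟩ : ∃ q, h = q + 1 := ⟨h - 1, by omega⟩
      exact grid_lt q (by omega) (by omega)
    refine ⟨by omega, by omega, by omega, by omega⟩

lemma Vl_lt (hh : 1 ≤ h) (hr : 2 * h < r) {k l : Fin (h + 1 + r)}
    (hkl : pos h r k.val < pos h r l.val) : Vl h r k < Vl h r l := by
  have hk := sandwich h r hh hr k
  have hl := sandwich h r hh hr l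
  have hge : pos h r k.val / 2 ≤ pos h r l.val / 2 := Nat.div_le_div_right hkl.le
  rcases Nat.lt_or_ge (pos h r k.val / 2) (pos h r l.val / 2) with hlt | hge'
  · have h1 : (pos h r k.val / 2 + 1).choose (h + 1) ≤ (pos h r l.val / 2).choose (h + 1) :=
      grid_le h (by omega)
    rcases hk with ⟨_, hk, hk'⟩ | ⟨_, _, hk, _⟩
    · have h2 : (pos h r k.val / 2).choose (h + 1) < (pos h r k.val / 2 + 1).choose (h + 1) :=
        grid_lt h (by omega) hk'
      rcases hl with ⟨_, hl, _⟩ | ⟨_, hl, _⟩ <;> omega
    · rcases hl with ⟨_, hl, _⟩ | ⟨_, hl, _⟩ <;> omega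
  · have heq : pos h r k.val / 2 = pos h r l.val / 2 := by omega
    rcases hk with ⟨pk, hk, hk'⟩ | ⟨pk, _, hk, _⟩
    · rcases hl with ⟨pl, hl, _⟩ | ⟨pl, hl, _⟩
      · omega
      · rw [← heq] at hl; omega
    · omega

lemma Vl_bound (hh : 1 ≤ h) (hr : 2 * h < r) (k : Fin (h + 1 + r)) :
    Vl h r k < (h + r).choose (h + 1) := by
  have hk2 := k.2
  have hp : pos h r k.val < 2 * (h + r) := by
    unfold pos
    split_ifs <;> omega
  rcases sandwich h r hh hr k with ⟨_, hk, hk'⟩ | ⟨_, _, hk, hk'⟩
  · rw [hk]; exact grid_lt h (by omega) hk'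
  · exact lt_of_lt_of_le hk (grid_le h (by omega))

/-- The degree of a clique vertex. -/
lemma deg_inl (hr : 2 * h < r) (k : Fin (h + 1 + r)) :
    FDeg (clq (h + 2)) (Spl (NN h r)) (Sum.inl k) + Vl h r k =
      (h + r).choose (h + 1) + (h + r).choose (h + 1) := by
  rw [clq_deg_inl]
  have h1 : h + 1 + r - 1 = h + r := by omega
  rw [h1, add_assoc]
  congr 1
  unfold Vl
  rw [← Finset.sum_add_distrib]
  have h2 : ∀ j : Fin r, ((if k ∈ NN h r j then ((NN h r j).card - 1).choose h else 0) +
      if k ∈ M h r j then (h + j.val).choose h else 0) = (h + j.val).choose h := by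
    intro j
    rw [card_NN h r hr]
    have h3 : h + 1 + j.val - 1 = h + j.val := by omega
    rw [h3]
    by_cases hk : k ∈ M h r j
    · have : k ∉ NN h r j := by simp [NN, hk]
      rw [if_neg this, if_pos hk, zero_add]
    · have : k ∈ NN h r j := by simp [NN, hk]
      rw [if_pos this, if_neg hk, add_zero]
  rw [Finset.sum_congr rfl (fun j _ => h2 j), Fin.sum_univ_eq_sum_range (fun j => (h + j).choose h) r,
    sum_hockey]

theorem Spl_irregular (hh : 1 ≤ h) (hr : 2 * h < r) :
    Irregular (clq (h + 2)) (Spl (NN h r)) := by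
  have hll : ∀ k l : Fin (h + 1 + r), pos h r k.val < pos h r l.val →
      FDeg (clq (h + 2)) (Spl (NN h r)) (Sum.inl k) ≠ FDeg (clq (h + 2)) (Spl (NN h r)) (Sum.inl l) := by
    intro k l hkl heq
    have h1 := deg_inl h r hr k
    have h2 := deg_inl h r hr l
    have h3 := Vl_lt h r hh hr hkl
    omega
  have hlr : ∀ (k : Fin (h + 1 + r)) (j : Fin r),
      FDeg (clq (h + 2)) (Spl (NN h r)) (Sum.inr j) < FDeg (clq (h + 2)) (Spl (NN h r)) (Sum.inl k) := by
    intro k j
    have h1 := deg_inl h r hr k
    have h2 := Vl_bound h r hh hr k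
    rw [clq_deg_inr, card_NN h r hr]
    have h3 : (h + 1 + j.val).choose (h + 1) ≤ (h + r).choose (h + 1) :=
      grid_le h (by have := j.2; omega)
    omega
  rintro (k | i) (l | j) hne
  · have hkl : k ≠ l := fun hk => hne (by rw [hk])
    have hv : pos h r k.val ≠ pos h r l.val := fun hp => hkl (Fin.ext (pos_inj h r hr k.2 l.2 hp))
    rcases lt_or_gt_of_ne hv with hp | hp
    · exact hll k l hp
    · exact (hll l k hp).symm
  · exact (hlr k j).ne'
  · exact (hlr l i).ne
  · have hij : i.val ≠ j.val := fun hk => hne (by rw [Fin.ext hk])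
    rw [clq_deg_inr, clq_deg_inr, card_NN h r hr, card_NN h r hr]
    rcases lt_or_gt_of_ne hij with hp | hp
    · exact (grid_lt h (by omega) (by omega)).ne
    · exact (grid_lt h (by omega) (by omega)).ne'

end main

end Pool.Agent.Q268.Irr
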