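import Pool.Agent.Q268.Irr.Base

set_option autoImplicit false

namespace Pool.Agent.Q268.Irr

open Finset

/-! ### Comparison of the two-term function -/

section compare

variable {V : Type} [Fintype V] [DecidableEq V] (G : SimpleGraph V) [DecidableRel G.Adj]

/-- weight of a vertex -/
def w (n : ℕ) (z : V) : ℕ := (G.degree z - 1).choose (n - 1)

def g (n : ℕ) (x : V) : ℕ := (G.degree x).choose n + ∑ y ∈ G.neighborFinset x, w G n y

lemma sum_lt {A B : Finset V} {f : V → ℕ} (hdom : ∀ z ∈ A, z ∈ B ∨ f z = 0)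
    (hz : ∃ z0 ∈ B, z0 ∉ A ∧ 0 < f z0) : ∑ z ∈ A, f z < ∑ z ∈ B, f z := by
  obtain ⟨z0, h1, h2, h3⟩ := hz
  have h4 : ∑ z ∈ A, f z = ∑ z ∈ A ∩ B, f z := by
    symm
    apply Finset.sum_subset Finset.inter_subset_left
    intro z hz hz'
    rcases hdom z hz with h | h
    · exact absurd (Finset.mem_inter.mpr ⟨hz, h⟩) hz'
    · exact h
  rw [h4]
  apply Finset.sum_lt_sum_of_subset Finset.inter_subset_right h1 _ h3 (fun _ _ _ => Nat.zero_le _)
  rw [Finset.mem_inter]
  exact fun h => h2 h.1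

lemma sum_le {A B : Finset V} {f : V → ℕ} (hdom : ∀ z ∈ A, z ∈ B ∨ f z = 0) :
    ∑ z ∈ A, f z ≤ ∑ z ∈ B, f z := by
  have h4 : ∑ z ∈ A, f z = ∑ z ∈ A ∩ B, f z := by
    symm
    apply Finset.sum_subset Finset.inter_subset_left
    intro z hz hz'
    rcases hdom z hz with h | h
    · exact absurd (Finset.mem_inter.mpr ⟨hz, h⟩) hz'
    · exact h
  rw [h4]
  exact Finset.sum_le_sum_of_subset Finset.inter_subset_right

/-- nonadjacent comparison -/
lemma g_lt_nonadj {n : ℕ} {x y : V} (hdeg : G.degree x ≤ G.degree y)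
    (hdom : ∀ z, G.Adj x z → G.Adj y z ∨ w G n z = 0)
    (hs : (G.degree x).choose n < (G.degree y).choose n ∨
      ∃ z0, G.Adj y z0 ∧ ¬ G.Adj x z0 ∧ 0 < w G n z0) : g G n x < g G n y := by
  unfold g
  have h1 : (G.degree x).choose n ≤ (G.degree y).choose n := Nat.choose_le_choose n hdeg
  have hd : ∀ z ∈ G.neighborFinset x, z ∈ G.neighborFinset y ∨ w G n z = 0 := by
    intro z hz
    rw [SimpleGraph.mem_neighborFinset] at hz ⊢
    exact hdom z hz
  rcases hs with hs | ⟨z0, h2, h3, h4⟩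
  · exact add_lt_add_of_lt_of_le hs (sum_le hd)
  · refine add_lt_add_of_le_of_lt h1 (sum_lt hd ⟨z0, ?_, ?_, h4⟩)
    · rwa [SimpleGraph.mem_neighborFinset]
    · rwa [SimpleGraph.mem_neighborFinset]

/-- adjacent comparison -/
lemma g_lt_adj {n : ℕ} (hn : 1 ≤ n) {x y : V} (hxy : G.Adj x y) (hdeg : G.degree x ≤ G.degree y)
    (hdom : ∀ z, z ≠ y → G.Adj x z → G.Adj y z ∨ w G n z = 0)
    (hs : (G.degree x - 1).choose n < (G.degree y - 1).choose n ∨
      ∃ z0, z0 ≠ x ∧ G.Adj y z0 ∧ ¬ G.Adj x z0 ∧ 0 < w G n z0) : g G n x < g G n y := by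
  have hform : ∀ x y, G.Adj x y → g G n x = (G.degree x - 1).choose n + (w G n x + w G n y) +
      ∑ z ∈ (G.neighborFinset x).erase y, w G n z := by
    intro x y hxy
    unfold g
    rw [← Finset.add_sum_erase (G.neighborFinset x) _ (show y ∈ G.neighborFinset x by
      rwa [SimpleGraph.mem_neighborFinset])]
    have hpos : 0 < G.degree x := by
      rw [SimpleGraph.degree_pos_iff_exists_adj]; exact ⟨y, hxy⟩
    obtain ⟨d, hd⟩ : ∃ d, G.degree x = d + 1 := ⟨G.degree x - 1, by omega⟩
    obtain ⟨q, rfl⟩ : ∃ q, n = q + 1 := ⟨n - 1, by omega⟩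
    have : w G (q + 1) x = d.choose q := by unfold w; rw [hd]; rfl
    rw [this, hd, Nat.choose_succ_succ' d q]
    simp only [Nat.add_sub_cancel]
    ring
  rw [hform x y hxy, hform y x hxy.symm]
  have h1 : (G.degree x - 1).choose n ≤ (G.degree y - 1).choose n := Nat.choose_le_choose n (by omega)
  have hd : ∀ z ∈ (G.neighborFinset x).erase y, z ∈ (G.neighborFinset y).erase x ∨ w G n z = 0 := by
    intro z hz
    rw [mem_erase, SimpleGraph.mem_neighborFinset] at hz ⊢
    rcases hdom z hz.1 hz.2 with h | h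
    · exact Or.inl ⟨hz.2.ne.symm, h⟩
    · exact Or.inr h
  rw [add_comm (w G n y) (w G n x)]
  rcases hs with hs | ⟨z0, h0, h2, h3, h4⟩
  · exact add_lt_add_of_lt_of_le (Nat.add_lt_add_right hs _) (sum_le hd)
  · refine add_lt_add_of_le_of_lt (Nat.add_le_add_right h1 _) (sum_lt hd ⟨z0, ?_, ?_, h4⟩)
    · rw [mem_erase, SimpleGraph.mem_neighborFinset]; exact ⟨h0, h2⟩
    · rw [mem_erase, SimpleGraph.mem_neighborFinset]; exact fun h => h3 h.2

lemma w_le_g {n : ℕ} {x y : V} (h : G.Adj x y) : w G n y ≤ g G n x := by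
  unfold g
  exact le_trans (Finset.single_le_sum (f := fun z => w G n z) (fun _ _ => Nat.zero_le _)
    (show y ∈ G.neighborFinset x by rwa [SimpleGraph.mem_neighborFinset])) (Nat.le_add_left _ _)

end compare

/-! ### The graph -/

/-- clique `a_i`, independent `b_j`, pendant `p` -/
abbrev VV (m : ℕ) : Type := Fin m ⊕ (Fin m ⊕ Unit)

def adjB {m : ℕ} : VV m → VV m → Bool
  | Sum.inl i, Sum.inl j => i ≠ j
  | Sum.inl i, Sum.inr (Sum.inl j) => decide (i.val ≤ j.val)
  | Sum.inr (Sum.inl j), Sum.inl i => decide (i.val ≤ j.val)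
  | Sum.inl i, Sum.inr (Sum.inr _) => decide (i.val + 1 = m)
  | Sum.inr (Sum.inr _), Sum.inl i => decide (i.val + 1 = m)
  | Sum.inr _, Sum.inr _ => false

def SG (m : ℕ) : SimpleGraph (VV m) where
  Adj x y := adjB x y = true
  symm := ⟨by
    rintro (i | j | u) (i' | j' | u') h
    · simp only [adjB, ne_eq, decide_not, Bool.not_eq_eq_eq_not, Bool.not_true, decide_eq_false_iff_not] at h ⊢
      exact fun h' => h h'.symm
    all_goals simpa [adjB] using h⟩
  loopless := ⟨by
    rintro (i | j | u) h <;> simp [adjB] at h⟩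

instance (m : ℕ) : DecidableRel (SG m).Adj := fun x y => inferInstanceAs (Decidable (adjB x y = true))

abbrev a {m : ℕ} (i : Fin m) : VV m := Sum.inl i
abbrev b {m : ℕ} (i : Fin m) : VV m := Sum.inr (Sum.inl i)
abbrev pp {m : ℕ} : VV m := Sum.inr (Sum.inr ())

lemma adj_aa {m : ℕ} {i j : Fin m} : (SG m).Adj (a i) (a j) ↔ i ≠ j := by
  change adjB _ _ = true ↔ _
  simp [adjB]

lemma adj_ab {m : ℕ} {i j : Fin m} : (SG m).Adj (a i) (b j) ↔ i.val ≤ j.val := by
  change adjB _ _ = true ↔ _
  simp [adjB]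

lemma adj_ba {m : ℕ} {i j : Fin m} : (SG m).Adj (b j) (a i) ↔ i.val ≤ j.val := by
  rw [SimpleGraph.adj_comm, adj_ab]

lemma adj_ap {m : ℕ} {i : Fin m} : (SG m).Adj (a i) pp ↔ i.val + 1 = m := by
  change adjB _ _ = true ↔ _
  simp [adjB]

lemma adj_pa {m : ℕ} {i : Fin m} : (SG m).Adj pp (a i) ↔ i.val + 1 = m := by
  rw [SimpleGraph.adj_comm, adj_ap]

lemma not_bb {m : ℕ} {i j : Fin m} : ¬ (SG m).Adj (b i) (b j) := by
  change ¬ adjB _ _ = true
  simp [adjB]

lemma not_bp {m : ℕ} {i : Fin m} : ¬ (SG m).Adj (b i) pp := by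
  change ¬ adjB _ _ = true
  simp [adjB]

lemma not_pb {m : ℕ} {i : Fin m} : ¬ (SG m).Adj pp (b i) := by
  rw [SimpleGraph.adj_comm]; exact not_bp

lemma not_pp {m : ℕ} : ¬ (SG m).Adj (pp : VV m) pp := (SG m).irrefl

lemma deg_a {m : ℕ} (i : Fin m) :
    (SG m).degree (a i) = (m - 1) + (m - i.val) + (if i.val + 1 = m then 1 else 0) := by
  have h : (SG m).neighborFinset (a i) = (univ.erase i).disjSum
      ((Finset.Ici i).disjSum (if i.val + 1 = m then {()} else ∅)) := by
    ext z
    rw [SimpleGraph.mem_neighborFinset]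
    rcases z with j | j | ⟨⟩
    · rw [inl_mem_disjSum, mem_erase]
      rw [adj_aa]
      exact ⟨fun h => ⟨h.symm, mem_univ _⟩, fun h => h.1.symm⟩
    · rw [inr_mem_disjSum, inl_mem_disjSum, mem_Ici, adj_ab]
      exact Iff.rfl
    · rw [inr_mem_disjSum, inr_mem_disjSum, adj_ap]
      split_ifs with h <;> simp [h]
  rw [← SimpleGraph.card_neighborFinset_eq_degree, h, card_disjSum, card_disjSum,
    Finset.card_erase_of_mem (mem_univ _), Fin.card_Ici, card_univ, Fintype.card_fin, ← add_assoc]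
  congr 1
  split_ifs <;> simp

lemma deg_b {m : ℕ} (j : Fin m) : (SG m).degree (b j) = j.val + 1 := by
  have h : (SG m).neighborFinset (b j) = (Finset.Iic j).disjSum ∅ := by
    ext z
    rw [SimpleGraph.mem_neighborFinset]
    rcases z with i | i | ⟨⟩
    · rw [inl_mem_disjSum, mem_Iic, adj_ba]
      exact Iff.rfl
    · rw [inr_mem_disjSum]
      simp [not_bb]
    · rw [inr_mem_disjSum]
      exact ⟨fun h => absurd h not_bp, fun h => by simp at h⟩
  rw [← SimpleGraph.card_neighborFinset_eq_degree, h, card_disjSum, Fin.card_Iic]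
  simp

lemma deg_p {m : ℕ} (hm : 0 < m) : (SG m).degree (pp : VV m) = 1 := by
  have h : (SG m).neighborFinset (pp : VV m) = ({⟨m - 1, by omega⟩} : Finset (Fin m)).disjSum ∅ := by
    ext z
    rw [SimpleGraph.mem_neighborFinset]
    rcases z with i | i | ⟨⟩
    · rw [inl_mem_disjSum, mem_singleton, adj_pa, Fin.ext_iff]
      simp only
      omega
    · rw [inr_mem_disjSum]
      simp [not_pb]
    · rw [inr_mem_disjSum]
      simp
  rw [← SimpleGraph.card_neighborFinset_eq_degree, h, card_disjSum]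
  simp

section main

variable {m n : ℕ}

lemma choose_lt {x y q : ℕ} (hxy : x < y) (hq : 1 ≤ q) (hy : q ≤ y) : x.choose q < y.choose q := by
  obtain ⟨r, rfl⟩ : ∃ r, q = r + 1 := ⟨q - 1, by omega⟩
  obtain ⟨z, rfl⟩ : ∃ z, y = z + 1 := ⟨y - 1, by omega⟩
  have h1 : x.choose (r + 1) ≤ z.choose (r + 1) := Nat.choose_le_choose _ (by omega)
  have h2 : (z + 1).choose (r + 1) = z.choose r + z.choose (r + 1) := Nat.choose_succ_succ' z r
  have h3 : 0 < z.choose r := Nat.choose_pos (by omega)
  omega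

lemma lt_bb (hn : 2 ≤ n) (hm : n + 2 ≤ m) {i j : Fin m} (hij : i.val < j.val) :
    g (SG m) n (b i) < g (SG m) n (b j) := by
  apply g_lt_nonadj
  · rw [deg_b, deg_b]; omega
  · rintro (k | k | ⟨⟩) hz
    · left
      rw [adj_ba] at hz ⊢
      omega
    · exact absurd hz not_bb
    · exact absurd hz not_bp
  · right
    refine ⟨a j, ?_, ?_, ?_⟩
    · rw [adj_ba]
    · rw [adj_ba]; omega
    · unfold w
      rw [deg_a]
      apply Nat.choose_pos
      have := j.2
      omega

lemma lt_ba (hn : 2 ≤ n) (hm : n + 2 ≤ m) (i j : Fin m) :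
    g (SG m) n (b j) < g (SG m) n (a i) := by
  have hi := i.2
  have hj := j.2
  by_cases hij : i.val ≤ j.val
  · apply g_lt_adj (SG m) (by omega) (adj_ba.mpr hij)
    · rw [deg_a, deg_b]; split_ifs <;> omega
    · rintro (k | k | ⟨⟩) hz hz'
      · left
        rw [adj_aa]
        rintro rfl
        exact hz rfl
      · exact absurd hz' not_bb
      · exact absurd hz' not_bp
    · left
      rw [deg_a, deg_b]
      apply choose_lt
      · split_ifs <;> omega
      · omega
      · split_ifs <;> omega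
  · apply g_lt_nonadj (SG m)
    · rw [deg_a, deg_b]; split_ifs <;> omega
    · rintro (k | k | ⟨⟩) hz
      · left
        rw [adj_ba] at hz
        rw [adj_aa]
        rintro rfl
        exact hij hz
      · exact absurd hz not_bb
      · exact absurd hz not_bp
    · left
      rw [deg_a, deg_b]
      apply choose_lt
      · split_ifs <;> omega
      · omega
      · split_ifs <;> omega

lemma lt_aa (hn : 2 ≤ n) (hm : n + 2 ≤ m) {i j : Fin m} (hij : i.val < j.val) :
    g (SG m) n (a j) < g (SG m) n (a i) := by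
  have hi := i.2
  have hj := j.2
  have hne : j ≠ i := fun h => by rw [h] at hij; exact lt_irrefl _ hij
  apply g_lt_adj (SG m) (by omega) (adj_aa.mpr hne)
  · rw [deg_a, deg_a]; split_ifs <;> omega
  · rintro (k | k | ⟨⟩) hz hz'
    · left
      rw [adj_aa]
      rintro rfl
      exact hz rfl
    · left
      rw [adj_ab] at hz' ⊢
      omega
    · right
      unfold w
      rw [deg_p (by omega)]
      apply Nat.choose_eq_zero_of_lt
      omega
  · by_cases hjm : j.val + 1 = m
    · right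
      refine ⟨b ⟨m - 2, by omega⟩, by simp, ?_, ?_, ?_⟩
      · rw [adj_ab]
        simp only
        omega
      · rw [adj_ab]
        simp only
        omega
      · unfold w
        rw [deg_b]
        apply Nat.choose_pos
        simp only
        omega
    · left
      rw [deg_a, deg_a, if_neg hjm]
      apply choose_lt
      · split_ifs <;> omega
      · omega
      · split_ifs <;> omega

lemma lt_pb (hn : 2 ≤ n) (hm : n + 2 ≤ m) (j : Fin m) :
    g (SG m) n pp < g (SG m) n (b j) := by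
  have h0 : 0 < m := by omega
  have h1 : g (SG m) n (pp : VV m) = m.choose (n - 1) := by
    unfold g
    have h : (SG m).neighborFinset (pp : VV m) = {a ⟨m - 1, by omega⟩} := by
      ext z
      rw [SimpleGraph.mem_neighborFinset, mem_singleton]
      rcases z with i | i | ⟨⟩
      · rw [adj_pa]
        simp only [Sum.inl.injEq, Fin.ext_iff]
        omega
      · simp [not_pb]
      · simp
    rw [h, Finset.sum_singleton, deg_p h0]
    unfold w
    rw [deg_a, Nat.choose_eq_zero_of_lt (by omega), zero_add]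
    congr 1
    simp only
    split_ifs <;> omega
  have h2 : w (SG m) n (a ⟨0, h0⟩) ≤ g (SG m) n (b j) := w_le_g _ (by
    rw [adj_ba]; exact Nat.zero_le _)
  refine lt_of_lt_of_le ?_ h2
  rw [h1]
  unfold w
  rw [deg_a]
  simp only
  apply choose_lt
  · split_ifs <;> omega
  · omega
  · split_ifs <;> omega

lemma lt_pa (hn : 2 ≤ n) (hm : n + 2 ≤ m) (i : Fin m) :
    g (SG m) n pp < g (SG m) n (a i) :=
  (lt_pb hn hm ⟨0, by omega⟩).trans (lt_ba hn hm i _)

theorem SG_irregular (hn : 2 ≤ n) (hm : n + 2 ≤ m) : Irregular (star n) (SG m) := by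
  have key : ∀ x y : VV m, x ≠ y → g (SG m) n x ≠ g (SG m) n y := by
    rintro (i | i | ⟨⟩) (j | j | ⟨⟩) hne
    · rcases lt_trichotomy i.val j.val with h | h | h
      · exact (lt_aa hn hm h).ne'
      · exact absurd (by rw [Fin.ext h]) hne
      · exact (lt_aa hn hm h).ne
    · exact (lt_ba hn hm i j).ne'
    · exact (lt_pa hn hm i).ne'
    · exact (lt_ba hn hm j i).ne
    · rcases lt_trichotomy i.val j.val with h | h | h
      · exact (lt_bb hn hm h).ne
      · exact absurd (by rw [Fin.ext h]) hne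
      · exact (lt_bb hn hm h).ne'
    · exact (lt_pb hn hm i).ne'
    · exact (lt_pa hn hm j).ne
    · exact (lt_pb hn hm j).ne
    · exact absurd rfl hne
  intro x y hxy
  rw [star_deg hn, star_deg hn]
  exact key x y hxy

end main

end Pool.Agent.Q268.Irr
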